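import Pool.Agent.BKW.Stmts

/-!
BKW, row SIZ.
-/

set_option autoImplicit false

open Real

open scoped BigOperators

noncomputable section

namespace Pool.Agent.BKW.H21

open Pool.Agent.BKW

theorem absb {N B : ℕ} {a : Fin N → ℕ} {a0 : ℕ} {b : Fin N → ℤ} {b0 : ℤ} {l : ℝ}
    (hD : Dat N a a0 b b0 l B) : |(b0 : ℝ)| = B := by
  have h := hD.hb0
  rw [← Int.cast_abs, Int.abs_eq_natAbs, h]
  simp

theorem cc_le {N L B : ℕ} {a : Fin N → ℕ} {a0 : ℕ} {b : Fin N → ℤ} {b0 : ℤ} {l : ℝ}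
    (hD : Dat N a a0 b b0 l B) (u : Ix N L) (j : Fin N) :
    |((cc b b0 u j : ℤ) : ℝ)| ≤ 2 * B * L := by
  have h0 := absb hD
  have hb : |((b j : ℤ) : ℝ)| ≤ B := by
    have h := hD.hb j
    rw [← Int.cast_abs, Int.abs_eq_natAbs]
    have : ((b j).natAbs : ℝ) ≤ (B : ℝ) := by exact_mod_cast h
    simpa using this
  have hu1 : (((u.1 j : ℕ) : ℝ)) ≤ L := by exact_mod_cast (u.1 j).2.le
  have hu2 : (((u.2 : ℕ) : ℝ)) ≤ L := by exact_mod_cast u.2.2.le
  have e1 : ((cc b b0 u j : ℤ) : ℝ) = (b0 : ℝ) * ((u.1 j : ℕ) : ℝ) - (b j : ℝ) * ((u.2 : ℕ) : ℝ) := by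
    unfold cc
    push_cast
    ring
  rw [e1]
  have hB0 : (0 : ℝ) ≤ B := Nat.cast_nonneg B
  have p1 : (0 : ℝ) ≤ ((u.1 j : ℕ) : ℝ) := Nat.cast_nonneg _
  have p2 : (0 : ℝ) ≤ ((u.2 : ℕ) : ℝ) := Nat.cast_nonneg _
  calc |(b0 : ℝ) * ((u.1 j : ℕ) : ℝ) - (b j : ℝ) * ((u.2 : ℕ) : ℝ)|
      ≤ |(b0 : ℝ) * ((u.1 j : ℕ) : ℝ)| + |(b j : ℝ) * ((u.2 : ℕ) : ℝ)| := abs_sub _ _
    _ = |(b0 : ℝ)| * ((u.1 j : ℕ) : ℝ) + |(b j : ℝ)| * ((u.2 : ℕ) : ℝ) := by
        rw [abs_mul, abs_mul, abs_of_nonneg p1, abs_of_nonneg p2]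
    _ ≤ B * L + B * L := by
        rw [h0]
        gcongr
    _ = 2 * B * L := by ring

theorem log_nn {N B : ℕ} {a : Fin N → ℕ} {a0 : ℕ} {b : Fin N → ℤ} {b0 : ℤ} {l : ℝ}
    (hD : Dat N a a0 b b0 l B) (j : Fin N) : 0 ≤ log (a j) :=
  Real.log_nonneg (by exact_mod_cast hD.a1 j)

theorem log_mon {N L B : ℕ} {a : Fin N → ℕ} {a0 : ℕ} {b : Fin N → ℤ} {b0 : ℤ} {l : ℝ}
    (hD : Dat N a a0 b b0 l B) (u : Ix N L) :
    log (mon a a0 u) = ∑ j, ((u.1 j : ℕ) : ℝ) * log (a j) + ((u.2 : ℕ) : ℝ) * log a0 := by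
  unfold mon
  push_cast
  have ha : ∀ j, (0 : ℝ) < a j := fun j => by exact_mod_cast hD.a1 j
  have ha0 : (0 : ℝ) < a0 := by exact_mod_cast hD.a01
  rw [Real.log_mul (Finset.prod_ne_zero_iff.mpr (fun j _ => (pow_pos (ha j) _).ne'))
    (pow_pos ha0 _).ne', Real.log_prod (fun j _ => (pow_pos (ha j) _).ne'), Real.log_pow]
  simp only [Real.log_pow]

theorem siz : SizStmt := by
  intro N L B a a0 b b0 l hD hL
  have hL1 : (1 : ℝ) ≤ L := by exact_mod_cast hL
  have hB1 : (1 : ℝ) ≤ B := by exact_mod_cast hD.B1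
  have hl1 := hD.l1
  have hbb := absb hD
  have hb0 : (b0 : ℝ) ≠ 0 := by
    intro h
    rw [h, abs_zero] at hbb
    linarith
  have h2BL : (1 : ℝ) ≤ 2 * B * L := by nlinarith
  refine ⟨?_, ?_⟩
  · intro p H0 h μ hp hμ
    have hterm : ∀ u : Ix N L, |(p u : ℝ) * ((∏ j, cc b b0 u j ^ μ j : ℤ) : ℝ)| ≤
        exp H0 * (2 * B * L) ^ h := by
      intro u
      rw [abs_mul]
      apply mul_le_mul (hp u) _ (abs_nonneg _) (exp_pos _).le
      push_cast
      rw [Finset.abs_prod]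
      calc ∏ j, |((cc b b0 u j : ℤ) : ℝ) ^ μ j| ≤ ∏ j, (2 * (B : ℝ) * L) ^ μ j := by
            apply Finset.prod_le_prod
            · intro j _
              exact abs_nonneg _
            · intro j _
              rw [abs_pow]
              exact pow_le_pow_left₀ (abs_nonneg _) (cc_le hD u j) _
        _ = (2 * (B : ℝ) * L) ^ (∑ j, μ j) := by rw [Finset.prod_pow_eq_pow_sum]
        _ ≤ (2 * (B : ℝ) * L) ^ h := pow_le_pow_right₀ h2BL hμ
    have hsum : ∑ u : Ix N L, |(p u : ℝ) * ((∏ j, cc b b0 u j ^ μ j : ℤ) : ℝ)| ≤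
        ∑ _u : Ix N L, exp H0 * (2 * (B : ℝ) * L) ^ h := Finset.sum_le_sum (fun u _ => hterm u)
    refine hsum.trans (le_of_eq ?_)
    rw [Finset.sum_const, nsmul_eq_mul]
    have hcard : ((Finset.univ : Finset (Ix N L)).card : ℝ) = (L : ℝ) ^ (N + 1) := by
      rw [Finset.card_univ]
      simp only [Fintype.card_prod, Fintype.card_pi, Fintype.card_fin, Finset.prod_const,
        Finset.card_univ]
      push_cast
      ring
    rw [hcard]
    unfold logC
    rw [Real.exp_add, Real.exp_add]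
    have e1 : exp (((N : ℝ) + 1) * log L) = (L : ℝ) ^ (N + 1) := by
      rw [show ((N : ℝ) + 1) * log L = ((N + 1 : ℕ) : ℝ) * log L by push_cast; ring,
        Real.exp_nat_mul, Real.exp_log (by linarith)]
    have e2 : exp ((h : ℝ) * log (2 * B * L)) = (2 * (B : ℝ) * L) ^ h := by
      rw [Real.exp_nat_mul, Real.exp_log (by linarith)]
    rw [e1, e2]
    ring
  · intro u
    have hmon := log_mon hD u
    have hu1 : ∀ j, (((u.1 j : ℕ) : ℝ)) ≤ L := fun j => by exact_mod_cast (u.1 j).2.le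
    have hu2 : (((u.2 : ℕ) : ℝ)) ≤ L := by exact_mod_cast u.2.2.le
    refine ⟨?_, ?_, ?_, ?_⟩
    · unfold th
      rw [abs_div, hbb, div_le_iff₀ (by linarith)]
      calc |∑ j, ((cc b b0 u j : ℤ) : ℝ) * log (a j)|
          ≤ ∑ j, |((cc b b0 u j : ℤ) : ℝ) * log (a j)| := Finset.abs_sum_le_sum_abs _ _
        _ ≤ ∑ _j : Fin N, 2 * (B : ℝ) * L * l := by
            apply Finset.sum_le_sum
            intro j _
            rw [abs_mul, abs_of_nonneg (log_nn hD j)]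
            exact mul_le_mul (cc_le hD u j) (hD.la j) (log_nn hD j) (by linarith)
        _ = 2 * N * L * l * B := by
            rw [Finset.sum_const, nsmul_eq_mul, Finset.card_univ, Fintype.card_fin]
            ring
    · rw [hmon]
      unfold th Lam
      have e1 : ∑ j, ((cc b b0 u j : ℤ) : ℝ) * log (a j) =
          (b0 : ℝ) * ∑ j, ((u.1 j : ℕ) : ℝ) * log (a j) -
            ((u.2 : ℕ) : ℝ) * ∑ j, (b j : ℝ) * log (a j) := by
        rw [Finset.mul_sum, Finset.mul_sum, ← Finset.sum_sub_distrib]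
        apply Finset.sum_congr rfl
        intro j _
        unfold cc
        push_cast
        ring
      rw [e1]
      field_simp
      ring
    · unfold mon
      exact Nat.one_le_iff_ne_zero.mpr (Nat.mul_ne_zero
        (Finset.prod_ne_zero_iff.mpr (fun j _ => pow_ne_zero _ (by have := hD.a1 j; omega)))
        (pow_ne_zero _ (by have := hD.a01; omega)))
    · rw [hmon]
      have s1 : ∑ j, ((u.1 j : ℕ) : ℝ) * log (a j) ≤ ∑ _j : Fin N, (L : ℝ) * l := by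
        apply Finset.sum_le_sum
        intro j _
        exact mul_le_mul (hu1 j) (hD.la j) (log_nn hD j) (by linarith)
      rw [Finset.sum_const, nsmul_eq_mul, Finset.card_univ, Fintype.card_fin] at s1
      have s2 : ((u.2 : ℕ) : ℝ) * log a0 ≤ (L : ℝ) * l :=
        mul_le_mul hu2 hD.la0 (Real.log_nonneg (by exact_mod_cast hD.a01)) (by linarith)
      nlinarith

end Pool.Agent.BKW.H21
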